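import Mathlib
import Pool.Agent.H1.EH.ME

/-!
# EHP: gradient of the Green function of a segment

`uab a b z = arcosh ((|z-a| + |z-b|)/(b-a))` is real differentiable off `[a,b]` (more precisely
where `b - a < |z-a| + |z-b|` and `z ≠ a, b`), and in polar coordinates
`u_l² + u_φ² = |z|²/(|z-a||z-b|)`.
-/

set_option autoImplicit false

open Complex MeasureTheory Set
open scoped Real

noncomputable section

namespace Pool.Agent.H1.EH

/-- partial derivatives of `|x + iy - a|` -/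
theorem norm_curve_hasDerivAt {γ : ℝ → ℂ} {γ' c : ℂ} {s : ℝ} (h : HasDerivAt γ γ' s)
    (hne : γ s - c ≠ 0) :
    HasDerivAt (fun s => ‖γ s - c‖) (((γ' * (starRingEnd ℂ) (γ s - c)).re) / ‖γ s - c‖) s := by
  have h1 : HasDerivAt (fun s => γ s - c) γ' s := h.sub_const c
  have hre : HasDerivAt (fun s => (γ s - c).re) γ'.re s :=
    (Complex.reCLM.hasFDerivAt.comp_hasDerivAt s h1)
  have him : HasDerivAt (fun s => (γ s - c).im) γ'.im s :=
    (Complex.imCLM.hasFDerivAt.comp_hasDerivAt s h1)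
  have h2 : HasDerivAt (fun s => (γ s - c).re ^ 2 + (γ s - c).im ^ 2)
      (2 * (γ s - c).re * γ'.re + 2 * (γ s - c).im * γ'.im) s := by
    have := (hre.pow 2).add (him.pow 2)
    refine this.congr_deriv ?_
    push_cast
    ring
  have hpos : 0 < (γ s - c).re ^ 2 + (γ s - c).im ^ 2 := by
    have : 0 < Complex.normSq (γ s - c) := Complex.normSq_pos.2 hne
    rw [Complex.normSq_apply] at this
    nlinarith
  have h3 := h2.sqrt hpos.ne'
  have e1 : (fun s => ‖γ s - c‖) = fun s => √((γ s - c).re ^ 2 + (γ s - c).im ^ 2) := by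
    funext s
    rw [Complex.norm_def, Complex.normSq_apply]
    congr 1
    ring
  rw [e1]
  refine h3.congr_deriv ?_
  rw [Complex.norm_def, Complex.normSq_apply]
  have e2 : (γ s - c).re * (γ s - c).re + (γ s - c).im * (γ s - c).im =
      (γ s - c).re ^ 2 + (γ s - c).im ^ 2 := by ring
  rw [e2]
  have e3 : (γ' * (starRingEnd ℂ) (γ s - c)).re = γ'.re * (γ s - c).re + γ'.im * (γ s - c).im := by
    rw [Complex.mul_re, Complex.conj_re, Complex.conj_im]
    ring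
  rw [e3]
  have hs : √((γ s - c).re ^ 2 + (γ s - c).im ^ 2) ≠ 0 := (Real.sqrt_pos.2 hpos).ne'
  field_simp

/-- derivative of `uab` along a curve -/
theorem uab_curve {a b : ℝ} (hab : a < b) {γ : ℝ → ℂ} {γ' : ℂ} {s : ℝ} (h : HasDerivAt γ γ' s)
    (ha : γ s ≠ a) (hb : γ s ≠ b) (hz : b - a < ‖γ s - a‖ + ‖γ s - b‖) :
    HasDerivAt (fun s => uab a b (γ s))
      ((γ' * ((starRingEnd ℂ) (γ s - a) / ‖γ s - a‖ + (starRingEnd ℂ) (γ s - b) / ‖γ s - b‖)).re /
        √((‖γ s - a‖ + ‖γ s - b‖) ^ 2 - (b - a) ^ 2)) s := by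
  have hba : 0 < b - a := by linarith
  have h1 := norm_curve_hasDerivAt (c := (a : ℂ)) h (sub_ne_zero.2 ha)
  have h2 := norm_curve_hasDerivAt (c := (b : ℂ)) h (sub_ne_zero.2 hb)
  have h3 := (h1.add h2).div_const (b - a)
  have hx : 1 < (‖γ s - a‖ + ‖γ s - b‖) / (b - a) := by
    rw [lt_div_iff₀ hba]; linarith
  have h4 := (Real.hasDerivAt_arcosh (x := (‖γ s - a‖ + ‖γ s - b‖) / (b - a)) hx).comp s h3
  unfold uab
  refine HasDerivAt.congr_deriv h4 ?_
  have e1 : √(((‖γ s - a‖ + ‖γ s - b‖) / (b - a)) ^ 2 - 1) =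
      √((‖γ s - a‖ + ‖γ s - b‖) ^ 2 - (b - a) ^ 2) / (b - a) := by
    rw [eq_div_iff hba.ne', ← Real.sqrt_sq hba.le, ← Real.sqrt_mul' _ (sq_nonneg _),
      Real.sqrt_sq hba.le]
    congr 1
    field_simp
  rw [e1]
  have e2 : 0 < √((‖γ s - a‖ + ‖γ s - b‖) ^ 2 - (b - a) ^ 2) := by
    apply Real.sqrt_pos.2
    nlinarith [norm_nonneg (γ s - (a : ℂ)), norm_nonneg (γ s - (b : ℂ))]
  have e3 : (γ' * ((starRingEnd ℂ) (γ s - a) / ‖γ s - a‖ + (starRingEnd ℂ) (γ s - b) / ‖γ s - b‖)).re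
      = (γ' * (starRingEnd ℂ) (γ s - a)).re / ‖γ s - a‖ +
        (γ' * (starRingEnd ℂ) (γ s - b)).re / ‖γ s - b‖ := by
    rw [mul_add, Complex.add_re, ← mul_div_assoc, ← mul_div_assoc, Complex.div_ofReal_re,
      Complex.div_ofReal_re]
  rw [e3]
  field_simp

/-- the squared length of the gradient vector in closed form -/
theorem grad_sq {a b : ℝ} (hab : a < b) {z : ℂ} (ha : z ≠ a) (hb : z ≠ b)
    (hz : b - a < ‖z - a‖ + ‖z - b‖) :
    ‖((starRingEnd ℂ) (z - a) / ‖z - a‖ + (starRingEnd ℂ) (z - b) / ‖z - b‖)‖ ^ 2 /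
      ((‖z - a‖ + ‖z - b‖) ^ 2 - (b - a) ^ 2) = 1 / (‖z - a‖ * ‖z - b‖) := by
  have hA : 0 < ‖z - (a : ℂ)‖ := norm_pos_iff.2 (sub_ne_zero.2 ha)
  have hB : 0 < ‖z - (b : ℂ)‖ := norm_pos_iff.2 (sub_ne_zero.2 hb)
  have hD : 0 < (‖z - a‖ + ‖z - b‖) ^ 2 - (b - a) ^ 2 := by
    nlinarith
  have hA2 : ‖z - (a : ℂ)‖ ^ 2 = (z.re - a) ^ 2 + z.im ^ 2 := by
    rw [← Complex.normSq_eq_norm_sq, Complex.normSq_apply]
    simp
    ring
  have hB2 : ‖z - (b : ℂ)‖ ^ 2 = (z.re - b) ^ 2 + z.im ^ 2 := by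
    rw [← Complex.normSq_eq_norm_sq, Complex.normSq_apply]
    simp
    ring
  have h1 : ‖((starRingEnd ℂ) (z - a) / ‖z - a‖ + (starRingEnd ℂ) (z - b) / ‖z - b‖)‖ ^ 2 =
      2 + 2 * ((z.re - a) * (z.re - b) + z.im ^ 2) / (‖z - a‖ * ‖z - b‖) := by
    rw [← Complex.normSq_eq_norm_sq, Complex.normSq_apply, Complex.add_re, Complex.add_im,
      Complex.div_ofReal_re, Complex.div_ofReal_re, Complex.div_ofReal_im, Complex.div_ofReal_im]
    simp only [Complex.conj_re, Complex.conj_im, Complex.sub_re, Complex.sub_im,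
      Complex.ofReal_re, Complex.ofReal_im, sub_zero]
    have e : ((z.re - a) / ‖z - a‖ + (z.re - b) / ‖z - b‖) *
        ((z.re - a) / ‖z - a‖ + (z.re - b) / ‖z - b‖) +
        (-z.im / ‖z - a‖ + -z.im / ‖z - b‖) * (-z.im / ‖z - a‖ + -z.im / ‖z - b‖) =
        ((z.re - a) ^ 2 + z.im ^ 2) / ‖z - a‖ ^ 2 + ((z.re - b) ^ 2 + z.im ^ 2) / ‖z - b‖ ^ 2 +
        2 * ((z.re - a) * (z.re - b) + z.im ^ 2) / (‖z - a‖ * ‖z - b‖) := by
      field_simp
      ring
    rw [e, ← hA2, ← hB2, div_self (by positivity), div_self (by positivity)]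
    ring
  have h2 : (‖z - a‖ + ‖z - b‖) ^ 2 - (b - a) ^ 2 =
      2 * (‖z - a‖ * ‖z - b‖) + 2 * ((z.re - a) * (z.re - b) + z.im ^ 2) := by
    linear_combination hA2 + hB2
  rw [h1, div_eq_div_iff hD.ne' (by positivity), h2]
  field_simp

/-- **ME1** in polar coordinates: `u_l² + u_φ² = |z|²/(|z-a||z-b|)` -/
theorem me_polar {a b : ℝ} (hab : a < b) (l φ : ℝ)
    (ha : Complex.exp (l + φ * I) ≠ a) (hb : Complex.exp (l + φ * I) ≠ b)
    (hz : b - a < ‖Complex.exp (l + φ * I) - a‖ + ‖Complex.exp (l + φ * I) - b‖) :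
    ∃ ul uφ : ℝ, HasDerivAt (fun l : ℝ => uab a b (Complex.exp (l + φ * I))) ul l ∧
      HasDerivAt (fun φ : ℝ => uab a b (Complex.exp (l + φ * I))) uφ φ ∧
      ul ^ 2 + uφ ^ 2 = Real.exp l ^ 2 /
        (‖Complex.exp (l + φ * I) - a‖ * ‖Complex.exp (l + φ * I) - b‖) := by
  set z : ℂ := Complex.exp (l + φ * I) with hzdef
  have h1 : HasDerivAt (fun l : ℝ => Complex.exp (l + φ * I)) z l := by
    have e : HasDerivAt (fun l : ℝ => (l : ℂ) + φ * I) 1 l := by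
      simpa using (Complex.ofRealCLM.hasDerivAt (x := l)).add_const ((φ : ℂ) * I)
    simpa using e.cexp
  have h2 : HasDerivAt (fun φ : ℝ => Complex.exp (l + φ * I)) (z * I) φ := by
    have e : HasDerivAt (fun φ : ℝ => (l : ℂ) + φ * I) I φ := by
      have := (Complex.ofRealCLM.hasDerivAt (x := φ)).mul_const I
      simpa using this.const_add (l : ℂ)
    simpa using e.cexp
  have d1 := uab_curve hab h1 ha hb hz
  have d2 := uab_curve hab h2 ha hb hz
  refine ⟨_, _, d1, d2, ?_⟩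
  rw [← hzdef]
  set V : ℂ := (starRingEnd ℂ) (z - a) / ‖z - a‖ + (starRingEnd ℂ) (z - b) / ‖z - b‖ with hV
  have hD : 0 < (‖z - a‖ + ‖z - b‖) ^ 2 - (b - a) ^ 2 := by
    have hba : 0 < b - a := by linarith
    nlinarith [norm_nonneg (z - (a : ℂ)), norm_nonneg (z - (b : ℂ))]
  have e1 : (z * I * V).re = -(z * V).im := by
    have : z * I * V = (z * V) * I := by ring
    rw [this, Complex.mul_I_re]
  rw [e1, div_pow, div_pow, Real.sq_sqrt hD.le, ← add_div]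
  have e2 : (z * V).re ^ 2 + (-(z * V).im) ^ 2 = ‖z‖ ^ 2 * ‖V‖ ^ 2 := by
    rw [← mul_pow, ← norm_mul, ← Complex.normSq_eq_norm_sq, Complex.normSq_apply]
    ring
  have e3 : ‖z‖ = Real.exp l := by
    rw [hzdef, Complex.norm_exp]
    simp
  rw [e2, mul_div_assoc, grad_sq hab ha hb hz, e3]
  ring

end Pool.Agent.H1.EH
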