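import Mathlib
import Pool.Agent.H1.EH.ME

/-!
# EHP: log-polar coordinates

`∫_{log|z| ∈ I} f = ∫_{l ∈ I} ∫_0^{2π} e^{2l} f(e^{l+iφ}) dφ dl`.
-/

set_option autoImplicit false

open Complex MeasureTheory Set
open scoped Real

noncomputable section

namespace Pool.Agent.H1.EH

/-- a piece of the strip -/
def lst (I : Set ℝ) : Set ℂ := {w : ℂ | w.re ∈ I ∧ w.im ∈ Ioo (0 : ℝ) (2 * π)}

theorem measurableSet_lst {I : Set ℝ} (hI : MeasurableSet I) : MeasurableSet (lst I) :=
  (hI.preimage Complex.measurable_re).inter (measurableSet_Ioo.preimage Complex.measurable_im)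

/-- the annulus -/
def ann (I : Set ℝ) : Set ℂ := {z : ℂ | z ≠ 0 ∧ Real.log ‖z‖ ∈ I}

theorem exp_injOn_lst (I : Set ℝ) : InjOn Complex.exp (lst I) := by
  intro w hw w' hw' h
  have h1 : Complex.exp (w - π * Complex.I) = Complex.exp (w' - π * Complex.I) := by
    rw [Complex.exp_sub, Complex.exp_sub, h]
  have e : ∀ w : ℂ, (w - π * Complex.I).im = w.im - π := by
    intro w
    simp
  have h2 := Complex.exp_inj_of_neg_pi_lt_of_le_pi (x := w - π * Complex.I)
    (y := w' - π * Complex.I) (by rw [e]; linarith [hw.2.1]) (by rw [e]; linarith [hw.2.2])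
    (by rw [e]; linarith [hw'.2.1]) (by rw [e]; linarith [hw'.2.2]) h1
  exact sub_left_injective h2

theorem exp_image_lst (I : Set ℝ) :
    Complex.exp '' lst I ⊆ ann I ∧ ann I ⊆ Complex.exp '' lst I ∪ {z : ℂ | z.im = 0} := by
  constructor
  · rintro _ ⟨w, hw, rfl⟩
    refine ⟨Complex.exp_ne_zero _, ?_⟩
    rw [Complex.norm_exp, Real.log_exp]
    exact hw.1
  · intro z hz
    by_cases him : z.im = 0
    · exact Or.inr him
    left
    have h0 : -z ≠ 0 := neg_ne_zero.2 hz.1
    refine ⟨Complex.log (-z) + π * Complex.I, ⟨?_, ?_⟩, ?_⟩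
    · have : (Complex.log (-z) + π * Complex.I).re = Real.log ‖z‖ := by
        simp [Complex.log_re]
      rw [this]
      exact hz.2
    · have e1 : (Complex.log (-z) + π * Complex.I).im = Complex.arg (-z) + π := by
        simp [Complex.log_im]
      rw [e1]
      have h1 := Complex.neg_pi_lt_arg (-z)
      have h2 := Complex.arg_le_pi (-z)
      have h3 : Complex.arg (-z) ≠ π := by
        intro h
        have := Complex.arg_eq_pi_iff.1 h
        exact him (by simpa using this.2)
      have h4 := lt_of_le_of_ne h2 h3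
      constructor <;> linarith
    · rw [Complex.exp_add, Complex.exp_log h0, Complex.exp_pi_mul_I]
      ring

theorem det_exp (w : ℂ) :
    |((ContinuousLinearMap.toSpanSingleton ℂ (Complex.exp w)).restrictScalars ℝ : ℂ →L[ℝ] ℂ).det| =
      Real.exp w.re ^ 2 := by
  rw [det_mul, Complex.norm_exp, abs_of_nonneg (by positivity)]

theorem ann_ae_eq (I : Set ℝ) : (ann I : Set ℂ) =ᵐ[volume] Complex.exp '' lst I := by
  obtain ⟨h1, h2⟩ := exp_image_lst I
  refine Filter.EventuallyLE.antisymm ?_ (Filter.Eventually.of_forall (fun z hz => h1 hz))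
  have h3 : ∀ᵐ z : ℂ ∂volume, z.im ≠ 0 := by
    rw [ae_iff]
    simpa using volume_real_line
  filter_upwards [h3] with z hz hz'
  rcases h2 hz' with h | h
  · exact h
  · exact absurd h hz

theorem exp_hasFDeriv (I : Set ℝ) : ∀ w ∈ lst I, HasFDerivWithinAt Complex.exp
    ((ContinuousLinearMap.toSpanSingleton ℂ (Complex.exp w)).restrictScalars ℝ : ℂ →L[ℝ] ℂ)
    (lst I) w := fun w _ =>
  ((Complex.hasDerivAt_exp w).hasFDerivAt.restrictScalars ℝ).hasFDerivWithinAt

/-- integral over an annulus in log-polar coordinates, integrability -/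
theorem integrableOn_ann_iff {I : Set ℝ} (hI : MeasurableSet I) (f : ℂ → ℝ) :
    IntegrableOn f (ann I) ↔
      IntegrableOn (fun w : ℂ => Real.exp w.re ^ 2 * f (Complex.exp w)) (lst I) := by
  have h := integrableOn_image_iff_integrableOn_abs_det_fderiv_smul volume
    (measurableSet_lst hI) (exp_hasFDeriv I) (exp_injOn_lst I) f
  rw [integrableOn_congr_set_ae (ann_ae_eq I), h]
  simp only [det_exp, smul_eq_mul]

theorem integral_ann {I : Set ℝ} (hI : MeasurableSet I) (f : ℂ → ℝ) :
    ∫ z in ann I, f z = ∫ w in lst I, Real.exp w.re ^ 2 * f (Complex.exp w) := by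
  have h := integral_image_eq_integral_abs_det_fderiv_smul volume
    (measurableSet_lst hI) (exp_hasFDeriv I) (exp_injOn_lst I) f
  rw [setIntegral_congr_set (ann_ae_eq I), h]
  simp only [det_exp, smul_eq_mul]

theorem lst_eq (I : Set ℝ) :
    lst I = Complex.measurableEquivRealProd ⁻¹' (I ×ˢ Ioo (0 : ℝ) (2 * π)) := by
  ext w
  simp [lst, Complex.measurableEquivRealProd]

theorem integrableOn_lst_iff (I : Set ℝ) (g : ℂ → ℝ) :
    IntegrableOn g (lst I) ↔
      IntegrableOn (fun q : ℝ × ℝ => g (q.1 + q.2 * Complex.I)) (I ×ˢ Ioo (0 : ℝ) (2 * π)) := by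
  rw [lst_eq, ← MeasurePreserving.integrableOn_comp_preimage
    Complex.volume_preserving_equiv_real_prod Complex.measurableEquivRealProd.measurableEmbedding]
  have : (fun q : ℝ × ℝ => g (q.1 + q.2 * Complex.I)) ∘ Complex.measurableEquivRealProd = g := by
    funext w
    simp [Complex.measurableEquivRealProd, Complex.re_add_im]
  rw [this]

theorem integral_lst {I : Set ℝ} (g : ℂ → ℝ) (hg : IntegrableOn g (lst I)) :
    ∫ w in lst I, g w = ∫ l in I, ∫ φ in Ioo (0 : ℝ) (2 * π), g (l + φ * Complex.I) := by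
  have h1 := (integrableOn_lst_iff I g).1 hg
  rw [lst_eq]
  have h2 := MeasurePreserving.setIntegral_preimage_emb
    Complex.volume_preserving_equiv_real_prod Complex.measurableEquivRealProd.measurableEmbedding
    (fun q : ℝ × ℝ => g (q.1 + q.2 * Complex.I)) (I ×ˢ Ioo (0 : ℝ) (2 * π))
  have h3 : ∀ w : ℂ, g (((Complex.measurableEquivRealProd w).1 : ℂ) +
      (Complex.measurableEquivRealProd w).2 * Complex.I) = g w := by
    intro w
    simp [Complex.measurableEquivRealProd, Complex.re_add_im]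
  simp only [h3] at h2
  rw [h2, Measure.volume_eq_prod, setIntegral_prod _ (by rw [← Measure.volume_eq_prod]; exact h1)]

/-- **log-polar coordinates** -/
theorem polar_log {I : Set ℝ} (hI : MeasurableSet I) (f : ℂ → ℝ) (hf : IntegrableOn f (ann I)) :
    ∫ z in ann I, f z = ∫ l in I, ∫ φ in (0 : ℝ)..(2 * π),
      Real.exp l ^ 2 * f (Complex.exp (l + φ * Complex.I)) := by
  rw [integral_ann hI, integral_lst _ ((integrableOn_ann_iff hI f).1 hf)]
  apply setIntegral_congr_fun hI
  intro l _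
  simp only
  rw [intervalIntegral.integral_of_le (by positivity), integral_Ioc_eq_integral_Ioo]
  simp

theorem ann_Ioc_subset (l1 l2 : ℝ) : ann (Ioc l1 l2) ⊆ Metric.closedBall 0 (Real.exp l2) := by
  intro z hz
  rw [mem_closedBall_zero_iff]
  have h : 0 < ‖z‖ := norm_pos_iff.2 hz.1
  rw [← Real.exp_log h]
  exact Real.exp_le_exp.2 hz.2.2

/-- **ME3** -/
theorem me_iter {a b : ℝ} (hab : a < b) {l1 l2 : ℝ} (hl : l1 ≤ l2) :
    ∫ l in l1..l2, ∫ φ in (0 : ℝ)..(2 * π),
      Real.exp l ^ 2 / (‖Complex.exp (l + φ * Complex.I) - a‖ * ‖Complex.exp (l + φ * Complex.I) - b‖)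
      ≤ 2 * π * Real.log ((4 * Real.exp l2 + 2 * |a| + 2 * |b|) / (b - a)) := by
  obtain ⟨h1, h2⟩ := me_ball hab (Real.exp_pos l2).le
  have hsub := ann_Ioc_subset l1 l2
  have hI := h1.mono_set hsub
  have h3 := polar_log measurableSet_Ioc _ hI
  rw [intervalIntegral.integral_of_le hl]
  have e : (fun l : ℝ => ∫ φ in (0 : ℝ)..(2 * π), Real.exp l ^ 2 /
      (‖Complex.exp (l + φ * Complex.I) - a‖ * ‖Complex.exp (l + φ * Complex.I) - b‖)) =
      fun l : ℝ => ∫ φ in (0 : ℝ)..(2 * π), Real.exp l ^ 2 *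
      (1 / (‖Complex.exp (l + φ * Complex.I) - a‖ * ‖Complex.exp (l + φ * Complex.I) - b‖)) := by
    funext l
    congr 1
    funext φ
    ring
  rw [e, ← h3]
  refine le_trans (setIntegral_mono_set h1 (ae_of_all _ fun z => by positivity)
    (Filter.Eventually.of_forall (fun z hz => hsub hz))) h2

end Pool.Agent.H1.EH
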